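import Pool.Agent.H503R3.NF.Stmts

/-! Task Split of project H503-NF (written by helper71; the extension to localisations follows
`Pool/Agent/H503R3/FI/TaskC2.lean`). -/

set_option autoImplicit false

open MvPolynomial

namespace H503R3.NF.Split71

open H503R3.NF
open FR (R r hyp E w D)

section Ext

variable {B : Type} [CommRing B] {φ : B → B} {S : Submonoid B} {B' : Type}
    [CommRing B'] [Algebra B B'] [IsLocalization S B']

/-- `w` is the value of the extended map at `z`. -/
def Val (φ : B → B) (S : Submonoid B) (z w : B') : Prop :=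
  ∃ (s : S) (a : B), z * algebraMap B B' s ^ 2 = algebraMap B B' a ∧
    w * algebraMap B B' s = algebraMap B B' (φ a)

theorem val_unique (hsmul : ∀ r a, φ (r ^ 2 * a) = r * φ a) {z w w' : B'}
    (h1 : Val φ S z w) (h2 : Val φ S z w') : w = w' := by
  obtain ⟨s, a, hs1, hs2⟩ := h1
  obtain ⟨t, b, ht1, ht2⟩ := h2
  have hsu : IsUnit (algebraMap B B' s) := IsLocalization.map_units B' s
  have htu : IsUnit (algebraMap B B' t) := IsLocalization.map_units B' t
  have heq : algebraMap B B' (a * (t : B) ^ 2) = algebraMap B B' (b * (s : B) ^ 2) := by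
    rw [map_mul, map_mul, map_pow, map_pow, ← hs1, ← ht1]
    ring
  obtain ⟨u, hu⟩ := (IsLocalization.eq_iff_exists S B').1 heq
  have huu : IsUnit (algebraMap B B' u) := IsLocalization.map_units B' u
  have h3 : ((u : B) * t) ^ 2 * a = ((u : B) * s) ^ 2 * b := by
    calc ((u : B) * t) ^ 2 * a = (u : B) * (u * (a * (t : B) ^ 2)) := by ring
      _ = (u : B) * (u * (b * (s : B) ^ 2)) := by rw [hu]
      _ = ((u : B) * s) ^ 2 * b := by ring
  have h4 : (u : B) * t * φ a = (u : B) * s * φ b := by
    rw [← hsmul, ← hsmul, h3]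
  have h5 := congrArg (algebraMap B B') h4
  simp only [map_mul] at h5
  rw [← hs2, ← ht2] at h5
  have h6 : (algebraMap B B' u * (algebraMap B B' s * algebraMap B B' t)) * w =
      (algebraMap B B' u * (algebraMap B B' s * algebraMap B B' t)) * w' := by
    linear_combination h5
  exact (huu.mul (hsu.mul htu)).mul_left_cancel h6

theorem val_of {z : B'} (s : S) (a : B)
    (hz : z * algebraMap B B' s ^ 2 = algebraMap B B' a) :
    Val φ S z (IsLocalization.mk' B' (φ a) s) :=
  ⟨s, a, hz, IsLocalization.mk'_spec B' (φ a) s⟩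

theorem exists_den (S : Submonoid B) [IsLocalization S B'] (z : B') :
    ∃ (s : S) (a : B), z * algebraMap B B' s ^ 2 = algebraMap B B' a := by
  obtain ⟨a, s, rfl⟩ := IsLocalization.exists_mk'_eq S z
  refine ⟨s, a * (s : B), ?_⟩
  rw [pow_two, ← mul_assoc, IsLocalization.mk'_spec, map_mul]

theorem ext2 (S : Submonoid B) [IsLocalization S B'] (hadd : ∀ a b, φ (a + b) = φ a + φ b)
    (hsmul : ∀ r a, φ (r ^ 2 * a) = r * φ a) :
    ∃ φ' : B' → B', (∀ a b, φ' (a + b) = φ' a + φ' b) ∧ (∀ r a, φ' (r ^ 2 * a) = r * φ' a) ∧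
      ∀ b, φ' (algebraMap B B' b) = algebraMap B B' (φ b) := by
  have hex : ∀ z : B', ∃ w : B', Val φ S z w := by
    intro z
    obtain ⟨s, a, hz⟩ := exists_den S z
    exact ⟨_, val_of s a hz⟩
  choose φ' hφ' using hex
  have key : ∀ (z : B') (s : S) (a : B), z * algebraMap B B' s ^ 2 = algebraMap B B' a →
      φ' z * algebraMap B B' s = algebraMap B B' (φ a) := by
    intro z s a hz
    rw [val_unique hsmul (hφ' z) (val_of s a hz)]
    exact IsLocalization.mk'_spec B' (φ a) s
  refine ⟨φ', ?_, ?_, ?_⟩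
  · intro z1 z2
    obtain ⟨s, a, ha⟩ := exists_den S z1
    obtain ⟨t, b, hb⟩ := exists_den S z2
    have h1 := key z1 s a ha
    have h2 := key z2 t b hb
    have h3 := key (z1 + z2) (s * t) ((t : B) ^ 2 * a + (s : B) ^ 2 * b) (by
      rw [Submonoid.coe_mul, map_mul, map_add, map_mul, map_mul, map_pow, map_pow, ← ha, ← hb]
      ring)
    rw [hadd, hsmul, hsmul, Submonoid.coe_mul, map_mul, map_add, map_mul, map_mul,
      ← h1, ← h2] at h3
    have hu : IsUnit (algebraMap B B' s * algebraMap B B' t) :=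
      (IsLocalization.map_units B' s).mul (IsLocalization.map_units B' t)
    apply hu.mul_right_cancel
    linear_combination h3
  · intro r z
    obtain ⟨b, t, rfl⟩ := IsLocalization.exists_mk'_eq S r
    obtain ⟨s, a, ha⟩ := exists_den S z
    have h1 := key z s a ha
    have hr : IsLocalization.mk' B' b t * algebraMap B B' t = algebraMap B B' b :=
      IsLocalization.mk'_spec B' b t
    have h3 := key (IsLocalization.mk' B' b t ^ 2 * z) (t * s) (b ^ 2 * a) (by
      rw [Submonoid.coe_mul, map_mul, map_mul, map_pow, ← ha, ← hr]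
      ring)
    rw [hsmul, Submonoid.coe_mul, map_mul, map_mul, ← h1, ← hr] at h3
    have hu : IsUnit (algebraMap B B' t * algebraMap B B' s) :=
      (IsLocalization.map_units B' t).mul (IsLocalization.map_units B' s)
    apply hu.mul_right_cancel
    linear_combination h3
  · intro b
    have h1 := key (algebraMap B B' b) 1 b (by simp)
    simpa using h1

end Ext

section Root

variable (k : Type) [Field k] [IsAlgClosed k] [CharP k 2]

/-- Square roots of the coefficients. -/
theorem exists_g : ∃ g : D k →+* D k, (∀ a, g a ^ 2 = E k a) ∧ ∀ s : D k, ∃ y, g y = s := by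
  haveI : ExpChar k 2 := ExpChar.prime Nat.prime_two
  haveI : PerfectRing k 2 := PerfectField.toPerfectRing 2
  haveI : CharP (D k) 2 := inferInstance
  haveI : ExpChar (D k) 2 := ExpChar.prime Nat.prime_two
  let e := (frobeniusEquiv k 2).symm
  refine ⟨MvPolynomial.map (e : k →+* k), ?_, ?_⟩
  · intro a
    have h : ((frobenius (D k) 2).comp (MvPolynomial.map (e : k →+* k))) = (E k : D k →+* D k) := by
      refine MvPolynomial.ringHom_ext ?_ ?_
      · intro c
        simp only [RingHom.comp_apply, MvPolynomial.map_C, frobenius_def, RingHom.coe_coe,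
          MvPolynomial.expand_C]
        rw [← map_pow]
        congr 1
        exact (frobeniusEquiv k 2).apply_symm_apply c
      · intro i
        simp [frobenius_def]
    have h2 := congrArg (fun f : D k →+* D k => f a) h
    simpa [frobenius_def] using h2
  · intro s
    refine ⟨MvPolynomial.map ((frobeniusEquiv k 2 : k ≃+* k) : k →+* k) s, ?_⟩
    rw [MvPolynomial.map_map]
    have : ((e : k →+* k).comp ((frobeniusEquiv k 2 : k ≃+* k) : k →+* k)) = RingHom.id k := by
      ext x
      exact (frobeniusEquiv k 2).symm_apply_apply x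
    rw [this, MvPolynomial.map_id]

end Root

theorem exists_phi0 (k : Type) [Field k] [IsAlgClosed k] [CharP k 2] (c : FR.CoordData k)
    (ψ : D k →ₗ[R k] R k) :
    ∃ φ : R k → R k, (∀ a b, φ (a + b) = φ a + φ b) ∧ (∀ r a, φ (r ^ 2 * a) = r * φ a) ∧
      φ 1 = ψ 1 := by
  obtain ⟨g, hg, hsurj⟩ := exists_g k
  refine ⟨fun z => ψ (g (c.c0 (z : D k))), ?_, ?_, ?_⟩
  · intro a b
    simp only [Subalgebra.coe_add, map_add]
  · intro s z
    obtain ⟨y, hy⟩ := hsurj (s : D k)
    have h1 : ((s ^ 2 * z : R k) : D k) = E k y * (z : D k) := by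
      rw [Subalgebra.coe_mul, Subalgebra.coe_pow, ← hg, hy]
    simp only
    rw [h1, c.mul0, map_mul, hy]
    have h2 : (s : D k) * g (c.c0 (z : D k)) = s • g (c.c0 (z : D k)) := rfl
    rw [h2, map_smul, smul_eq_mul]
  · simp only [Subalgebra.coe_one, c.one0, map_one]

theorem taskSplit : TaskSplit := by
  intro hMem hCoord hParity hPsi k _ _ _ P _ hP
  obtain ⟨c⟩ := hCoord k
  obtain ⟨⟨ψ1, h1⟩, ⟨ψ3, h3⟩⟩ := hPsi hParity hCoord hMem k
  obtain ⟨ψ, hψ⟩ : ∃ ψ : D k →ₗ[R k] R k, ψ 1 ∉ P := by
    rcases hP with h | h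
    · exact ⟨ψ1, by rwa [h1]⟩
    · exact ⟨ψ3, by rwa [h3]⟩
  obtain ⟨φ0, hadd, hsmul, hone⟩ := exists_phi0 k c ψ
  obtain ⟨φ', hadd', hsmul', hmap⟩ := ext2 (B' := Localization.AtPrime P) P.primeCompl hadd hsmul
  have hu : IsUnit (algebraMap (R k) (Localization.AtPrime P) (ψ 1)) :=
    IsLocalization.map_units (Localization.AtPrime P) (⟨ψ 1, hψ⟩ : P.primeCompl)
  obtain ⟨v, hv⟩ := hu.exists_left_inv
  refine ⟨fun z => v * φ' z, ⟨?_, ?_, ?_⟩⟩
  · intro a b
    rw [hadd', mul_add]
  · intro r a
    rw [hsmul']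
    ring
  · have : φ' 1 = algebraMap (R k) (Localization.AtPrime P) (ψ 1) := by
      rw [← map_one (algebraMap (R k) (Localization.AtPrime P)), hmap, hone]
    rw [this, hv]

end H503R3.NF.Split71
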